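import Pool.Agent.BEX.LinkKM
import Pool.Agent.QL.Defs

/-!
# CYL, part D: the row operator on any set of labels is the normalised transfer matrix at `U = 0`

`KM ln` is the matrix of the rows of `QL.rowG ln` on the states of the label set `Λ` with the lines `ln j`. It is
`T(lam; 0) / kk(lam) ^ L`, the transfer matrix of BEX which crosses the lines `ln 0, ..., ln (L - 1)` only.
-/

namespace Pool.Agent.CYL.DK

open Pool.Agent.BEX Pool.Agent.QL Complex
open Pool.Agent.Hhelper14.SAW

/-- The row operator (transition weights `σ → τ`) on the label set `Λ` with the lines `ln j`. -/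
noncomputable def KM {Λ : Type} [DecidableEq Λ] {L : ℕ} (ln : Fin L → Λ) : Matrix (St Λ) (St Λ) ℝ := fun σ τ =>
  ∑ c : Ch L, match rowG ln c σ.1 with
    | none => 0
    | some g => open Classical in if g.1 = τ.1 then xc ^ g.2 else 0

variable {Λ : Type} [DecidableEq Λ]

/-- The labels of `rowG`. -/
def EL (Λ : Type) : Option (Option Λ) ≃ Λ ⊕ Bool where
  toFun z := match z with
    | none => Sum.inr true
    | some none => Sum.inr false
    | some (some i) => Sum.inl i
  invFun z := match z with
    | Sum.inr true => none
    | Sum.inr false => some none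
    | Sum.inl i => some (some i)
  left_inv z := by rcases z with _ | _ | i <;> rfl
  right_inv z := by rcases z with i | (_ | _) <;> rfl

/-- The sum over the choices along a list of lines. -/
noncomputable def SumH (Φ : (Λ ⊕ Bool → Λ ⊕ Bool) → ℂ) : List Λ → (Λ ⊕ Bool → Λ ⊕ Bool) → ℂ
  | [], f => Φ f
  | j :: l, f => ∑ c : Bool, match hop c (Sum.inr true) (Sum.inl j) f with
      | none => 0
      | some g => xC ^ g.2 * SumH Φ l g.1

/-- The product of the R-matrices at `lam` in the labels of `rowG`. -/
noncomputable def Fo2 (l : List Λ) (G : St (Λ ⊕ Bool) → ℂ) : St (Λ ⊕ Bool) → ℂ :=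
  l.foldr (fun j G => Rt (Sum.inr true) (Sum.inl j) lam G) G

theorem Fo_Fo2 (l : List Λ) (G : St (Λ ⊕ Bool) → ℂ) (m : St (Option (Option Λ))) :
    Fo l lam 0 (fun n => G (rl (EL Λ) n)) m = Fo2 l G (rl (EL Λ) m) := by
  induction l generalizing m with
  | nil => rfl
  | cons j l ih =>
    have h1 : Fo l lam 0 (fun n => G (rl (EL Λ) n)) = fun n => Fo2 l G (rl (EL Λ) n) := by
      funext n
      exact ih n
    rw [Fo_cons, h1]
    have h2 := Rt_rl (EL Λ) ax (lb j) lam (Fo2 l G) m
    simp only [Pi.zero_apply, sub_zero]
    exact h2.symm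

theorem Fo2_eq (Φ : (Λ ⊕ Bool → Λ ⊕ Bool) → ℂ) (G : St (Λ ⊕ Bool) → ℂ)
    (hG : ∀ n, G n = Φ n.1) (l : List Λ) (n : St (Λ ⊕ Bool)) :
    Fo2 l G n = (kk lam) ^ l.length * SumH Φ l n.1 := by
  induction l generalizing n with
  | nil => simp [Fo2, SumH, hG]
  | cons j l ih =>
    have h0 : Fo2 (j :: l) G = Rt (Sum.inr true) (Sum.inl j) lam (Fo2 l G) := rfl
    rw [h0]
    simp only [Rt, ih, w2_lam, w4_lam, w6_lam, w8_lam, w9_lam, SumH, Fintype.sum_bool, hop,
      List.length_cons, pow_succ]
    by_cases hp : n (Sum.inr true) = Sum.inr true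
    · by_cases hq : n (Sum.inl j) = Sum.inl j
      · have e1 : (n.jn (Sum.inr true) (Sum.inl j)).1 = ar (Sum.inr true) (Sum.inl j) n.1 := by
          unfold St.jn
          rw [dif_pos ⟨hp, hq⟩]
          rfl
        have e2 : cj (Sum.inr true) (Sum.inl j) n.1 = n.1 := by
          funext z
          unfold cj
          by_cases h1 : z = Sum.inr true
          · subst h1
            rw [Equiv.swap_apply_left]
            rw [hq, Equiv.swap_apply_right, hp]
          · by_cases h2 : z = Sum.inl j
            · subst h2
              rw [Equiv.swap_apply_right]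
              rw [hp, Equiv.swap_apply_left, hq]
            · rw [Equiv.swap_apply_of_ne_of_ne h1 h2, Equiv.swap_apply_of_ne_of_ne]
              · intro h3
                exact h1 (n.inj (h3.trans hp.symm))
              · intro h3
                exact h2 (n.inj (h3.trans hq.symm))
        rw [if_pos hp, if_pos hq, e1]
        simp [hp, hq, e2]
        ring
      · rw [if_pos hp, if_neg hq]
        have e1 : (n.sw (Sum.inr true) (Sum.inl j)).1 = cj (Sum.inr true) (Sum.inl j) n.1 := rfl
        rw [e1]
        simp [hp, hq]
        ring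
    · by_cases hq : n (Sum.inl j) = Sum.inl j
      · rw [if_neg hp, if_pos hq]
        have e1 : (n.sw (Sum.inr true) (Sum.inl j)).1 = cj (Sum.inr true) (Sum.inl j) n.1 := rfl
        rw [e1]
        simp [hp, hq]
        ring
      · rw [if_neg hp, if_neg hq]
        by_cases hj : n (Sum.inr true) = Sum.inl j
        · have hj' : n (Sum.inl j) = Sum.inr true := by rw [← hj]; simp
          have e2 : cj (Sum.inr true) (Sum.inl j) n.1 = n.1 := by
            funext z
            unfold cj
            by_cases h1 : z = Sum.inr true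
            · subst h1
              rw [Equiv.swap_apply_left]
              rw [hj', Equiv.swap_apply_left, hj]
            · by_cases h2 : z = Sum.inl j
              · subst h2
                rw [Equiv.swap_apply_right]
                rw [hj, Equiv.swap_apply_right, hj']
              · rw [Equiv.swap_apply_of_ne_of_ne h1 h2, Equiv.swap_apply_of_ne_of_ne]
                · intro h3
                  apply h2
                  apply n.inj
                  rw [hj']
                  exact h3
                · intro h3
                  apply h1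
                  apply n.inj
                  rw [hj]
                  exact h3
          rw [if_pos hj]
          simp [hj, hj', e2]
          ring
        · have e1 : (n.sw (Sum.inr true) (Sum.inl j)).1 = cj (Sum.inr true) (Sum.inl j) n.1 := rfl
          have e3 : (n.cp (Sum.inr true) (Sum.inl j)).1 = ct (Sum.inr true) (Sum.inl j) n.1 := by
            unfold St.cp
            rw [dif_pos ⟨hp, hq⟩]
            rfl
          rw [if_neg hj, e1, e3]
          simp [hp, hq, hj]
          ring

variable {L : ℕ} (ln : Fin L → Λ)

/-- The contribution of the choices `r` along the list `l`. -/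
noncomputable def XH (Φ : (Λ ⊕ Bool → Λ ⊕ Bool) → ℂ) (l : List (Fin L)) (r : Fin L → Bool)
    (f : Λ ⊕ Bool → Λ ⊕ Bool) : ℂ :=
  match hops (Sum.inr true) (l.map (fun j => (r j, (Sum.inl (ln j) : Λ ⊕ Bool)))) f with
  | none => 0
  | some g => xC ^ g.2 * Φ g.1

theorem XH_cons (Φ : (Λ ⊕ Bool → Λ ⊕ Bool) → ℂ) (j : Fin L) (l : List (Fin L))
    (r : Fin L → Bool) (f : Λ ⊕ Bool → Λ ⊕ Bool) :
    XH ln Φ (j :: l) r f = match hop (r j) (Sum.inr true) (Sum.inl (ln j)) f with
      | none => 0
      | some g => xC ^ g.2 * XH ln Φ l r g.1 := by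
  unfold XH
  rw [List.map_cons]
  simp only [hops]
  cases h1 : hop (r j) (Sum.inr true) (Sum.inl (ln j)) f with
  | none => simp
  | some g =>
    simp only [Option.bind_some]
    cases h2 : hops (Sum.inr true) (l.map (fun j => (r j, (Sum.inl (ln j) : Λ ⊕ Bool)))) g.1 with
    | none => simp
    | some h =>
      simp only [Option.map_some, pow_add]
      ring

theorem XH_update (Φ : (Λ ⊕ Bool → Λ ⊕ Bool) → ℂ) (j : Fin L) (c : Bool)
    (l : List (Fin L)) (hj : j ∉ l) (r : Fin L → Bool) (f : Λ ⊕ Bool → Λ ⊕ Bool) :
    XH ln Φ l (Function.update r j c) f = XH ln Φ l r f := by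
  unfold XH
  have h1 : l.map (fun i => (Function.update r j c i, (Sum.inl (ln i) : Λ ⊕ Bool))) =
      l.map (fun i => (r i, (Sum.inl (ln i) : Λ ⊕ Bool))) := by
    apply List.map_congr_left
    intro i hi
    have : i ≠ j := fun h => hj (h ▸ hi)
    rw [Function.update_of_ne this]
  rw [h1]

theorem sum_XH (Φ : (Λ ⊕ Bool → Λ ⊕ Bool) → ℂ) (l : List (Fin L)) (hl : l.Nodup)
    (f : Λ ⊕ Bool → Λ ⊕ Bool) :
    2 ^ l.length * ∑ r : Fin L → Bool, XH ln Φ l r f = 2 ^ L * SumH Φ (l.map ln) f := by
  induction l generalizing f with
  | nil =>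
    simp [XH, hops, SumH]
  | cons j l ih =>
    rw [List.nodup_cons] at hl
    set A : Bool → (Fin L → Bool) → ℂ := fun c r =>
      match hop c (Sum.inr true) (Sum.inl (ln j)) f with
      | none => 0
      | some g => xC ^ g.2 * XH ln Φ l r g.1 with hAdef
    have hA : ∀ c c' r, A c (Function.update r j c') = A c r := by
      intro c c' r
      simp only [hAdef]
      cases h : hop c (Sum.inr true) (Sum.inl (ln j)) f with
      | none => rfl
      | some g =>
        simp only
        rw [XH_update ln _ _ _ _ hl.1]
    have h1 : ∑ r : Fin L → Bool, XH ln Φ (j :: l) r f = ∑ r : Fin L → Bool, A (r j) r := by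
      refine Finset.sum_congr rfl fun r _ => ?_
      rw [XH_cons]
    have h2 : ∀ c, 2 ^ l.length * ∑ r : Fin L → Bool, A c r =
        2 ^ L * (match hop c (Sum.inr true) (Sum.inl (ln j)) f with
          | none => 0
          | some g => xC ^ g.2 * SumH Φ (l.map ln) g.1) := by
      intro c
      simp only [hAdef]
      cases h : hop c (Sum.inr true) (Sum.inl (ln j)) f with
      | none => simp
      | some g =>
        simp only
        rw [← Finset.mul_sum]
        have := ih hl.2 g.1
        linear_combination xC ^ g.2 * this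
    rw [List.length_cons, h1, pow_succ]
    have h3 := sum_choice j A hA
    calc (2 : ℂ) ^ l.length * 2 * ∑ r : Fin L → Bool, A (r j) r
        = 2 ^ l.length * (2 * ∑ r : Fin L → Bool, A (r j) r) := by ring
      _ = ∑ c : Bool, 2 ^ l.length * ∑ r : Fin L → Bool, A c r := by
          rw [h3, Finset.mul_sum]
      _ = 2 ^ L * SumH Φ ((j :: l).map ln) f := by
          simp only [h2, List.map_cons, SumH]
          rw [Finset.mul_sum]

/-- The final function of `rowG`. -/
noncomputable def PhiR (τ : St Λ) (f : Λ ⊕ Bool → Λ ⊕ Bool) : ℂ :=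
  match cap (Sum.inr false) (Sum.inr true) f with
  | none => 0
  | some h => open Classical in if (fun a => match h (Sum.inl a) with
        | Sum.inl i => i
        | Sum.inr _ => a) = τ.1 then 1 else 0

theorem KM_eq_sum (σ τ : St Λ) :
    ((KM ln σ τ : ℝ) : ℂ) = ∑ q : Bool, ∑ r : Fin L → Bool,
      XH ln (PhiR τ) (List.finRange L) r
        (if q then ar (Sum.inr false) (Sum.inr true) (Sum.map σ.1 id) else Sum.map σ.1 id) := by
  unfold KM
  rw [Fintype.sum_prod_type]
  push_cast
  refine Finset.sum_congr rfl fun q _ => Finset.sum_congr rfl fun r _ => ?_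
  unfold rowG XH
  simp only
  cases h1 : hops (Sum.inr true) ((List.finRange L).map (fun j => (r j, (Sum.inl (ln j) : Λ ⊕ Bool))))
    (if q = true then ar (Sum.inr false) (Sum.inr true) (Sum.map σ.1 id) else Sum.map σ.1 id) with
  | none => simp
  | some g =>
    simp only [Option.bind_some, PhiR]
    cases h2 : cap (Sum.inr false) (Sum.inr true) g.1 with
    | none => simp
    | some h =>
      simp only [Option.map_some, xC]
      split_ifs with a b b
      · simp
      · exact absurd a b
      · exact absurd b a
      · simp

omit [DecidableEq Λ] in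
theorem proj_eq (m : St (Option (Option Λ))) (j : Λ) :
    (match (rl (EL Λ) m) (Sum.inl j) with
        | Sum.inl i => i
        | Sum.inr _ => j) = resf m j := by
  unfold resf
  have h1 : (rl (EL Λ) m) (Sum.inl j) = EL Λ (m (lb j)) := rfl
  rw [h1]
  rcases hm : m (lb j) with _ | _ | i <;> rfl

variable [Fintype Λ]

theorem res_of_ax {m : St (Option (Option Λ))} (h1 : m ax = ax) (h2 : m ax' = ax') (i : Λ) :
    (res m) i = resf m i := by
  have hl : ∀ i, ∃ j, m (lb i) = lb j := by
    intro i
    rcases hm : m (lb i) with _ | _ | j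
    · exfalso
      have : m (lb i) = m ax := by rw [hm, h1]; rfl
      exact absurd (m.inj this) (by simp [lb, ax])
    · exfalso
      have : m (lb i) = m ax' := by rw [hm, h2]; rfl
      exact absurd (m.inj this) (by simp [lb, ax'])
    · exact ⟨j, rfl⟩
  have hr : ∀ i, m (lb i) = lb (resf m i) := by
    intro i
    obtain ⟨j, hj⟩ := hl i
    rw [hj, resf_of hj]
  have hinv : ∀ i, resf m (resf m i) = i := by
    intro i
    have e1 : m (m (lb i)) = lb i := m.inv _
    rw [hr i, hr (resf m i)] at e1
    exact Option.some_injective _ (Option.some_injective _ e1)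
  unfold res
  rw [dif_pos hinv]

theorem capF_PhiR (τ : St Λ) (m : St (Option (Option Λ))) :
    capF (Pi.single τ 1) m = PhiR τ (rl (EL Λ) m).1 := by
  have ha : ((rl (EL Λ) m).1 (Sum.inr false) = Sum.inr false) ↔ m ax' = ax' := by
    have : (rl (EL Λ) m).1 (Sum.inr false) = EL Λ (m ax') := rfl
    rw [this]
    constructor
    · intro h
      apply (EL Λ).injective
      exact h
    · intro h
      rw [h]
      rfl
  have hb : ((rl (EL Λ) m).1 (Sum.inr true) = Sum.inr true) ↔ m ax = ax := by
    have : (rl (EL Λ) m).1 (Sum.inr true) = EL Λ (m ax) := rfl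
    rw [this]
    constructor
    · intro h
      apply (EL Λ).injective
      exact h
    · intro h
      rw [h]
      rfl
  have hab : ((rl (EL Λ) m).1 (Sum.inr false) = Sum.inr true) ↔ m ax = ax' := by
    have : (rl (EL Λ) m).1 (Sum.inr false) = EL Λ (m ax') := rfl
    rw [this]
    constructor
    · intro h
      have h1 : m ax' = ax := by
        apply (EL Λ).injective
        exact h
      rw [← h1]; simp
    · intro h
      have h1 : m ax' = ax := by rw [← h]; simp
      rw [h1]
      rfl
  unfold capF PhiR cap
  by_cases h1 : m ax = ax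
  · by_cases h2 : m ax' = ax'
    · rw [if_pos h1, if_pos h2, if_pos (ha.2 h2), if_pos (hb.2 h1)]
      simp only [Pi.single_apply]
      have h3 : (res m = τ) ↔ ((fun j => match (rl (EL Λ) m).1 (Sum.inl j) with
        | Sum.inl i => i
        | Sum.inr _ => j) = τ.1) := by
        constructor
        · intro h
          funext j
          rw [← h]
          rw [res_of_ax h1 h2]
          exact proj_eq m j
        · intro h
          apply St.ext'
          intro j
          rw [res_of_ax h1 h2, ← proj_eq m j]
          exact congrFun h j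
      by_cases h4 : res m = τ
      · rw [if_pos h4, if_pos (h3.1 h4)]
      · rw [if_neg h4, if_neg (fun h => h4 (h3.2 h))]
    · rw [if_pos h1, if_neg h2, if_neg (fun h => h2 (ha.1 h)), if_pos (hb.2 h1)]
  · by_cases h2 : m ax' = ax'
    · rw [if_neg h1, if_pos h2, if_pos (ha.2 h2), if_neg (fun h => h1 (hb.1 h))]
    · rw [if_neg h1, if_neg h2, if_neg (fun h => h2 (ha.1 h)), if_neg (fun h => h1 (hb.1 h))]
      by_cases h3 : m ax = ax'
      · rw [if_pos h3, if_pos (hab.2 h3)]
      · rw [if_neg h3, if_neg (fun h => h3 (hab.1 h))]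
        have hne : m ax ≠ m ax' := by
          intro h
          exact absurd (m.inj h) (by simp [ax, ax'])
        have c2 : (m.cp ax ax') ax = ax := by
          simp only [St.cp, dif_pos (And.intro h1 h2)]
          simp [St.cpf]
        have c3 : (m.cp ax ax') ax' = ax' := by
          simp only [St.cp, dif_pos (And.intro h1 h2)]
          simp [St.cpf, ax, ax']
        have hct : ct (Sum.inr false) (Sum.inr true) (rl (EL Λ) m).1 = (rl (EL Λ) (m.cp ax ax')).1 := by
          rw [rl_cp]
          have e1 : (EL Λ) ax = Sum.inr true := rfl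
          have e2 : (EL Λ) ax' = Sum.inr false := rfl
          rw [e1, e2]
          unfold St.cp
          rw [dif_pos ⟨fun h => h1 (hb.1 h), fun h => h2 (ha.1 h)⟩]
          funext z
          change ct (Sum.inr false) (Sum.inr true) (rl (EL Λ) m).1 z =
            St.cpf (Sum.inr true) (Sum.inr false) (rl (EL Λ) m) z
          unfold ct St.cpf
          have hne' : (rl (EL Λ) m) (Sum.inr true) ≠ (rl (EL Λ) m) (Sum.inr false) := by
            intro h
            exact absurd ((rl (EL Λ) m).inj h) (by simp)
          by_cases z1 : z = Sum.inr false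
          · subst z1; simp
          · by_cases z2 : z = Sum.inr true
            · subst z2; simp
            · rw [if_neg z1, if_neg z2, if_neg z2, if_neg z1]
              by_cases z3 : z = (rl (EL Λ) m) (Sum.inr false)
              · rw [if_pos z3, if_neg (fun h => hne' (h.symm.trans z3)), if_pos z3]
              · rw [if_neg z3]
                by_cases z4 : z = (rl (EL Λ) m) (Sum.inr true)
                · rw [if_pos z4, if_pos z4]
                · rw [if_neg z4, if_neg z4, if_neg z3]
        rw [hct]
        simp only [Pi.single_apply]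
        have h5 : (res (m.cp ax ax') = τ) ↔ ((fun j => match (rl (EL Λ) (m.cp ax ax')).1 (Sum.inl j) with
          | Sum.inl i => i
          | Sum.inr _ => j) = τ.1) := by
          constructor
          · intro h
            funext j
            rw [← h]
            rw [res_of_ax c2 c3]
            exact proj_eq _ j
          · intro h
            apply St.ext'
            intro j
            rw [res_of_ax c2 c3, ← proj_eq _ j]
            exact congrFun h j
        by_cases h4 : res (m.cp ax ax') = τ
        · rw [if_pos h4, if_pos (h5.1 h4)]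
        · rw [if_neg h4, if_neg (fun h => h4 (h5.2 h))]

/-- The entries of the transfer matrix at `lam`, all rapidities `0`. -/
theorem Tt_single (m m' : St Λ) :
    Tt ((List.finRange L).map ln) lam 0 (Pi.single m' 1) m = kk lam ^ L * ((KM ln m m' : ℝ) : ℂ) := by
  rw [KM_eq_sum]
  have h1 : ∀ f, ∑ r : Fin L → Bool, XH ln (PhiR m') (List.finRange L) r f =
      SumH (PhiR m') ((List.finRange L).map ln) f := by
    intro f
    have := sum_XH ln (PhiR m') (List.finRange L) (List.nodup_finRange L) f
    rw [List.length_finRange] at this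
    exact mul_left_cancel₀ (pow_ne_zero _ two_ne_zero) this
  simp only [h1, Fintype.sum_bool, if_true]
  rw [Tt_eq]
  have h3 : capF (Pi.single m' 1) = fun n => (fun k : St (Λ ⊕ Bool) => PhiR m' k.1)
      (rl (EL Λ) n) := by
    funext n
    exact capF_PhiR m' n
  have h4 : ∀ n, Fo ((List.finRange L).map ln) lam 0 (capF (Pi.single m' 1)) n =
      kk lam ^ L * SumH (PhiR m') ((List.finRange L).map ln) (rl (EL Λ) n).1 := by
    intro n
    rw [h3]
    have h5 := Fo_Fo2 ((List.finRange L).map ln) (fun k : St (Λ ⊕ Bool) => PhiR m' k.1) n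
    rw [h5, Fo2_eq (PhiR m') _ (fun _ => rfl), List.length_map, List.length_finRange]
  unfold cupF
  rw [h4, h4]
  have e1 : (rl (EL Λ) (ext0 m)).1 = Sum.map m.1 id := by
    funext z
    rcases z with i | (_ | _) <;> rfl
  have e2 : (rl (EL Λ) (ext1 m)).1 = ar (Sum.inr false) (Sum.inr true) (Sum.map m.1 id) := by
    unfold ext1
    rw [rl_jn]
    unfold St.jn
    rw [dif_pos ⟨rfl, rfl⟩]
    funext z
    change St.jnf ((EL Λ) ax) ((EL Λ) ax') (rl (EL Λ) (ext0 m)) z = _
    have e3 : (EL Λ) ax = Sum.inr true := rfl
    have e4 : (EL Λ) ax' = Sum.inr false := rfl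
    rw [e3, e4]
    unfold St.jnf ar
    by_cases z1 : z = Sum.inr true
    · subst z1; simp
    · by_cases z2 : z = Sum.inr false
      · subst z2; simp
      · rw [if_neg z1, if_neg z2, if_neg z2, if_neg z1]
        exact congrFun e1 z
  rw [e1, e2]
  simp only [Bool.false_eq_true, if_false]
  ring

/-- LINK: the transfer matrix at `lam` with all rapidities `0` is the row operator times `kk(lam) ^ L`. -/
theorem Tt_eq_KM (F : St Λ → ℂ) (m : St Λ) :
    Tt ((List.finRange L).map ln) lam 0 F m = kk lam ^ L * ∑ m', ((KM ln m m' : ℝ) : ℂ) * F m' := by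
  rw [Tt_expand, Finset.mul_sum]
  refine Finset.sum_congr rfl fun m' _ => ?_
  rw [Tt_single]
  ring

end Pool.Agent.CYL.DK
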