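import Pool.Agent.CYL.D.K.Link
import Pool.Agent.QL.Pow

/-!
# CYL, part D: powers of the row operator as sums over runs, on any set of labels.
-/

namespace Pool.Agent.CYL.DK

open Pool.Agent.Hhelper14.SAW Pool.Agent.HHP Pool.Agent.BEX Pool.Agent.QL
open scoped ENNReal

variable {Λ : Type} [DecidableEq Λ] {L : ℕ} (ln : Fin L → Λ)

theorem KM_nonneg (σ τ : St Λ) : 0 ≤ KM ln σ τ := by
  unfold KM
  refine Finset.sum_nonneg fun c _ => ?_
  split
  · exact le_rfl
  · split_ifs
    · exact pow_nonneg xc_pos.le _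
    · exact le_rfl

theorem ofReal_KM (σ τ : St Λ) :
    ENNReal.ofReal (KM ln σ τ) = ∑ c : Ch L, wr τ.1 (rowG ln c σ.1) := by
  have h1 : KM ln σ τ = ∑ c : Ch L, (wr τ.1 (rowG ln c σ.1)).toReal := by
    unfold KM
    refine Finset.sum_congr rfl fun c _ => ?_
    rcases rowG ln c σ.1 with _ | g
    · simp [wr]
    · simp only [wr]
      split_ifs
      · rw [ENNReal.toReal_pow]
        unfold xE
        rw [ENNReal.toReal_ofReal xc_pos.le]
      · simp
  rw [h1, ENNReal.ofReal_sum_of_nonneg fun c _ => ENNReal.toReal_nonneg]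
  refine Finset.sum_congr rfl fun c _ => ?_
  rw [ENNReal.ofReal_toReal]
  rcases rowG ln c σ.1 with _ | g
  · simp [wr]
  · simp only [wr]
    split_ifs
    · exact ENNReal.pow_ne_top xE_ne.2
    · exact ENNReal.zero_ne_top

variable [Fintype Λ]

theorem KM_pow_nonneg (n : ℕ) (σ τ : St Λ) : 0 ≤ (KM ln ^ n) σ τ := by
  induction n generalizing σ τ with
  | zero =>
    rw [pow_zero, Matrix.one_apply]
    split_ifs
    · exact zero_le_one
    · exact le_rfl
  | succ n ih =>
    rw [pow_succ', Matrix.mul_apply]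
    exact Finset.sum_nonneg fun ρ _ => mul_nonneg (KM_nonneg _ _ _) (ih _ _)

/-- `(KM ln)^M σ τ` is the mass of the runs of `M` rows from `σ` to `τ` (the first factor is the first row). -/
theorem KM_pow (M : ℕ) (σ τ : St Λ) : ENNReal.ofReal ((KM ln ^ M) σ τ) = rm ln M σ.1 τ.1 := by
  induction M generalizing σ τ with
  | zero =>
    rw [pow_zero, Matrix.one_apply]
    unfold rm
    have h1 : ∀ cs : {cs : List (Ch L) // cs.length = 0}, wr τ.1 (run ln cs.1 σ.1) =
        if σ = τ then 1 else 0 := by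
      rintro ⟨cs, h⟩
      have h2 : cs = [] := List.length_eq_zero_iff.1 h
      subst h2
      simp only [run, wr, pow_zero]
      by_cases h3 : σ = τ
      · rw [if_pos h3, if_pos (by rw [h3])]
      · rw [if_neg h3, if_neg fun h4 => h3 (Subtype.ext h4)]
    have : Unique {cs : List (Ch L) // cs.length = 0} :=
      ⟨⟨⟨[], rfl⟩⟩, fun cs => Subtype.ext (List.length_eq_zero_iff.1 cs.2)⟩
    rw [tsum_congr h1, tsum_fintype]
    split_ifs <;> simp
  | succ M ih =>
    rw [pow_succ', Matrix.mul_apply, ENNReal.ofReal_sum_of_nonneg fun ρ _ =>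
      mul_nonneg (KM_nonneg _ _ _) (KM_pow_nonneg _ M _ _)]
    simp only [ENNReal.ofReal_mul (KM_nonneg _ _ _), ih, ofReal_KM, Finset.sum_mul]
    rw [Finset.sum_comm, rm_succ]
    refine Finset.sum_congr rfl fun c _ => ?_
    rcases hg : rowG ln c σ.1 with _ | g
    · simp [wr]
    · simp only [wr]
      have hi := rowG_inv ln c σ.2 hg
      refine (Finset.sum_congr rfl fun ρ _ => (?_ : _ = if ρ = (⟨g.1, hi⟩ : St Λ) then
        xE ^ g.2 * rm ln M g.1 τ.1 else 0)).trans ?_
      · by_cases hρ : g.1 = ρ.1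
        · have h1 : ρ = (⟨g.1, hi⟩ : St Λ) := St.ext' fun i => (congrFun hρ i).symm
          subst h1
          simp
        · have h1 : ρ ≠ (⟨g.1, hi⟩ : St Λ) := fun h => hρ (by rw [h])
          simp [hρ, h1]
      · simp only [Finset.sum_ite_eq']
        exact if_pos (@Finset.mem_univ (St Λ) St.instFintypeOfDecidableEq ⟨g.1, hi⟩)

end Pool.Agent.CYL.DK
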